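import Pool.Agent.Helper26.BNProof

open MeasureTheory Filter Topology Set
open scoped ENNReal NNReal ContDiff
open Pool.Agent.Helper26.BN

namespace Pool.Agent.Results.MP_6822f0_an.BoundaryMinima

/-- **Negative answer to Q1.** For every `n ≥ 3`, every nonempty bounded open set `Θ ⊂ ℝⁿ` (in
particular every bounded smooth domain), every continuous positive weight `b` and every real `Λ`
there are smooth positive `a, c` such that every minimum point of `f = a^{n/2}/c^{(n-2)/2}` on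
`closure Θ` lies on `∂Θ` and is non-stationary for `f`, and nevertheless
`λ_{0,*}^{a,b,c} < Λ`. -/
theorem result (n : ℕ) (hn : 3 ≤ n) (Θ : Set (Eu n)) (hΘo : IsOpen Θ)
    (hΘb : Bornology.IsBounded Θ) (hΘn : Θ.Nonempty) (b : Eu n → ℝ)
    (hbc : ContinuousOn b (closure Θ)) (hbp : ∀ x ∈ closure Θ, 0 < b x) (Λ : ℝ) :
    ∃ a c : Eu n → ℝ, ContDiff ℝ ∞ a ∧ ContDiff ℝ ∞ c ∧ (∀ x, 0 < a x) ∧ (∀ x, 0 < c x) ∧
      (∃ x₀ ∈ closure Θ, IsMinOn (fAC a c) (closure Θ) x₀) ∧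
      (∀ x₀ ∈ closure Θ, IsMinOn (fAC a c) (closure Θ) x₀ →
        x₀ ∈ frontier Θ ∧ gradient (fAC a c) x₀ ≠ 0) ∧
      lamStar Θ a b c < (Λ : EReal) :=
  main n hn Θ hΘo hΘb hΘn b hbc hbp Λ

end Pool.Agent.Results.MP_6822f0_an.BoundaryMinima
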